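import Pool.Agent.W820.BM.Stm

/-! # No fixed point is close to a critical point -/

set_option autoImplicit false

open Topology Filter Metric Set Polynomial MeasureTheory
open Pool.Agent.H713R3.ZA

namespace W973.BM

open Pool.Agent.W820.BM

/-- a superattracting fixed point gives positive area -/
theorem kj_pos (T : ℂ[X]) (z : ℂ) (h1 : T.eval z = z) (h2 : (derivative T).eval z = 0) :
    0 < volume (KJ T) := by
  have hd := T.hasDerivAt z
  rw [h2, hasDerivAt_iff_isLittleO] at hd
  have h3 := hd.def (c := 1 / 2) (by norm_num)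
  obtain ⟨δ, hδ, h4⟩ := Metric.eventually_nhds_iff_ball.1 h3
  have h5 : ∀ u ∈ ball z δ, ‖T.eval u - z‖ ≤ 1 / 2 * ‖u - z‖ := by
    intro u hu
    have h6 := h4 u hu
    simp only [smul_zero, sub_zero, h1] at h6
    exact h6
  have h7 : ball z δ ⊆ KJ T := by
    intro u hu
    change ¬ Tendsto (fun k : ℕ => ‖(fun w : ℂ => T.eval w)^[k] u‖) atTop atTop
    intro ht
    have h8 : ∀ k : ℕ, (fun w : ℂ => T.eval w)^[k] u ∈ ball z δ := by
      intro k
      induction k with
      | zero => exact hu
      | succ k ih =>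
        rw [Function.iterate_succ_apply']
        have h9 := h5 _ ih
        rw [mem_ball, dist_eq_norm] at ih ⊢
        have h10 := norm_nonneg ((fun w : ℂ => T.eval w)^[k] u - z)
        linarith
    obtain ⟨k, hk⟩ := (ht.eventually (eventually_gt_atTop (‖z‖ + δ))).exists
    have h9 := h8 k
    rw [mem_ball, dist_eq_norm] at h9
    have h10 := norm_add_le ((fun w : ℂ => T.eval w)^[k] u - z) z
    rw [sub_add_cancel] at h10
    linarith
  exact (measure_ball_pos volume z hδ).trans_le (measure_mono h7)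

theorem eval_range (S : ℂ[X]) (d : ℕ) (h : S.natDegree ≤ d) (u : ℂ) :
    S.eval u = ∑ j ∈ Finset.range (d + 1), S.coeff j * u ^ j :=
  eval_eq_sum_range' (Nat.lt_succ_of_le h) u

theorem fix_bound (T : ℂ[X]) (hT : 2 ≤ T.natDegree) : ∃ (ρ ε : ℝ), 0 < ε ∧ ∀ S : ℂ[X],
    S.natDegree = T.natDegree → (∀ j : ℕ, ‖S.coeff j - T.coeff j‖ < ε) →
    ∀ z : ℂ, S.eval z = z → ‖z‖ ≤ ρ := by
  set d := T.natDegree with hd
  have hlead : T.coeff d ≠ 0 := by
    have : T ≠ 0 := by
      rintro rfl
      simp at hd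
      omega
    exact leadingCoeff_ne_zero.2 this
  set α : ℝ := ‖T.coeff d‖ with hα
  have hα0 : 0 < α := norm_pos_iff.2 hlead
  set M : ℝ := ∑ i ∈ Finset.range (d + 1), ‖T.coeff i‖ with hM
  have hM0 : 0 ≤ M := Finset.sum_nonneg fun i _ => norm_nonneg _
  refine ⟨(M + 2) / (α / 2) + 1, min 1 (α / 2), lt_min one_pos (by positivity), ?_⟩
  intro S hS hc z hz
  have hXd : (X : ℂ[X]).natDegree < S.natDegree := by
    rw [natDegree_X, hS]
    omega
  have hpd : (S - X).natDegree = d := by
    rw [natDegree_sub_eq_left_of_natDegree_lt hXd, hS]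
  have hpl : (S - X).leadingCoeff = S.coeff d := by
    unfold leadingCoeff
    rw [hpd, coeff_sub, coeff_X, if_neg (by omega), sub_zero]
  have hα2 : α / 2 ≤ ‖S.coeff d‖ := by
    have h1 := hc d
    have h2 : ‖T.coeff d‖ ≤ ‖S.coeff d‖ + ‖S.coeff d - T.coeff d‖ := by
      have := norm_sub_le (S.coeff d) (S.coeff d - T.coeff d)
      rwa [sub_sub_cancel] at this
    have h3 : ‖S.coeff d - T.coeff d‖ < α / 2 := lt_of_lt_of_le h1 (min_le_right _ _)
    linarith
  have hne : S - X ≠ 0 := by
    intro h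
    rw [h] at hpd
    simp at hpd
    omega
  have hroot : (S - X).IsRoot z := by
    rw [IsRoot.def, eval_sub, eval_X, hz, sub_self]
  have hb := hroot.norm_lt_cauchyBound hne
  have hb2 : ‖z‖ < ((S - X).cauchyBound : ℝ) := by exact_mod_cast hb
  refine (hb2.trans_le ?_).le
  unfold cauchyBound
  push_cast
  apply add_le_add _ le_rfl
  rw [hpl, hpd]
  have hsup : (((Finset.range d).sup (fun x => ‖(S - X).coeff x‖₊) : NNReal) : ℝ) ≤ M + 2 := by
    have hM2 : ((Real.toNNReal (M + 2) : NNReal) : ℝ) = M + 2 :=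
      Real.coe_toNNReal _ (by linarith)
    have h4 : (Finset.range d).sup (fun x => ‖(S - X).coeff x‖₊) ≤ Real.toNNReal (M + 2) := by
      apply Finset.sup_le
      intro i hi
      apply NNReal.coe_le_coe.1
      rw [hM2, coe_nnnorm, coeff_sub]
      have h5 : ‖T.coeff i‖ ≤ M := by
        rw [hM]
        exact Finset.single_le_sum (f := fun i => ‖T.coeff i‖) (fun j _ => norm_nonneg _)
          (Finset.mem_range.2 (by have := Finset.mem_range.1 hi; omega))
      have h6 : ‖S.coeff i‖ ≤ ‖T.coeff i‖ + ‖S.coeff i - T.coeff i‖ := by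
        have := norm_add_le (T.coeff i) (S.coeff i - T.coeff i)
        rwa [add_sub_cancel] at this
      have h7 : ‖S.coeff i - T.coeff i‖ < 1 := lt_of_lt_of_le (hc i) (min_le_left _ _)
      have h8 : ‖(X : ℂ[X]).coeff i‖ ≤ 1 := by
        rw [coeff_X]
        split_ifs <;> simp
      have h9 := norm_sub_le (S.coeff i) ((X : ℂ[X]).coeff i)
      linarith
    have h10 := NNReal.coe_le_coe.2 h4
    rwa [hM2] at h10
  calc (((Finset.range d).sup (fun x => ‖(S - X).coeff x‖₊) : NNReal) : ℝ) / ‖S.coeff d‖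
      ≤ (M + 2) / ‖S.coeff d‖ := div_le_div_of_nonneg_right hsup (norm_nonneg _)
    _ ≤ (M + 2) / (α / 2) := div_le_div_of_nonneg_left (by linarith) (by positivity) hα2

theorem fx_ : S_FX := by
  intro T hT hvol
  by_contra hcon
  push Not at hcon
  obtain ⟨ρ, ε0, hε0, hρ⟩ := fix_bound T hT
  set d := T.natDegree with hd
  have hεk : ∀ k : ℕ, 0 < min ε0 (1 / ((k : ℝ) + 1)) := fun k => lt_min hε0 (by positivity)
  choose S hS1 hS2 z y hz hy hzy using fun k : ℕ => hcon (min ε0 (1 / ((k : ℝ) + 1))) (hεk k)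
  have hzb : ∀ k, z k ∈ closedBall (0 : ℂ) ρ := by
    intro k
    rw [mem_closedBall_zero_iff]
    exact hρ (S k) (hS1 k) (fun j => lt_of_lt_of_le (hS2 k j) (min_le_left _ _)) (z k) (hz k)
  obtain ⟨z0, -, φ, hφ, hlim⟩ := (isCompact_closedBall (0 : ℂ) ρ).tendsto_subseq hzb
  have hlim' : Tendsto (fun k => z (φ k)) atTop (𝓝 z0) := hlim
  have h1k : Tendsto (fun k : ℕ => 1 / (((φ k : ℕ) : ℝ) + 1)) atTop (𝓝 0) :=
    tendsto_one_div_add_atTop_nhds_zero_nat.comp hφ.tendsto_atTop
  have hylim : Tendsto (fun k => y (φ k)) atTop (𝓝 z0) := by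
    have h2 : Tendsto (fun k => z (φ k) - y (φ k)) atTop (𝓝 0) := by
      rw [tendsto_zero_iff_norm_tendsto_zero]
      refine squeeze_zero (fun k => norm_nonneg _) (fun k => ?_) h1k
      exact (lt_of_lt_of_le (hzy (φ k)) (min_le_right _ _)).le
    have h3 := hlim'.sub h2
    simp only [sub_sub_cancel, sub_zero] at h3
    exact h3
  have hcoef : ∀ j, Tendsto (fun k => (S (φ k)).coeff j) atTop (𝓝 (T.coeff j)) := by
    intro j
    rw [tendsto_iff_norm_sub_tendsto_zero]
    refine squeeze_zero (fun k => norm_nonneg _) (fun k => ?_) h1k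
    exact (lt_of_lt_of_le (hS2 (φ k) j) (min_le_right _ _)).le
  have hfix : T.eval z0 = z0 := by
    have h4 : Tendsto (fun k => (S (φ k)).eval (z (φ k))) atTop (𝓝 (T.eval z0)) := by
      rw [eval_range T d le_rfl z0]
      have h5 : (fun k => (S (φ k)).eval (z (φ k))) =
          fun k => ∑ j ∈ Finset.range (d + 1), (S (φ k)).coeff j * (z (φ k)) ^ j := by
        funext k
        exact eval_range _ d (hS1 (φ k)).le _
      rw [h5]
      exact tendsto_finsetSum _ fun j _ => (hcoef j).mul (hlim'.pow j)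
    have h6 : (fun k => (S (φ k)).eval (z (φ k))) = fun k => z (φ k) := by
      funext k
      exact hz (φ k)
    rw [h6] at h4
    exact tendsto_nhds_unique h4 hlim'
  have hcrit : (derivative T).eval z0 = 0 := by
    have h4 : Tendsto (fun k => (derivative (S (φ k))).eval (y (φ k))) atTop
        (𝓝 ((derivative T).eval z0)) := by
      rw [eval_range (derivative T) d ((natDegree_derivative_le T).trans (Nat.sub_le _ _)) z0]
      have h5 : (fun k => (derivative (S (φ k))).eval (y (φ k))) =
          fun k => ∑ j ∈ Finset.range (d + 1),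
            (derivative (S (φ k))).coeff j * (y (φ k)) ^ j := by
        funext k
        refine eval_range _ d ((natDegree_derivative_le _).trans ?_) _
        rw [hS1 (φ k)]
        exact Nat.sub_le _ _
      rw [h5]
      refine tendsto_finsetSum _ fun j _ => Tendsto.mul ?_ (hylim.pow j)
      simp only [coeff_derivative]
      exact (hcoef (j + 1)).mul_const _
    have h6 : (fun k => (derivative (S (φ k))).eval (y (φ k))) = fun _ => 0 := by
      funext k
      exact hy (φ k)
    rw [h6] at h4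
    exact tendsto_nhds_unique h4 tendsto_const_nhds
  have := kj_pos T z0 hfix hcrit
  rw [hvol] at this
  exact lt_irrefl _ this

end W973.BM
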